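import Pool.Agent.helper82.LEQ.Spec

/-!
Row lq:EMP (from AC).
-/

set_option autoImplicit false

namespace LEQ

open scoped BigOperators
open QS (Lef EAb)

theorem EMP (hAC : AC_stmt) : EMP_stmt := by
  intro G _ _ p hp ι _ L hL U hU hB c E hE hEN hEz hne
  obtain ⟨_, _, _, _, _, hconj, _⟩ := hAC G p hp ι L hL
  by_contra hcon
  obtain ⟨g, hg⟩ := Finset.nonempty_iff_ne_empty.2 hcon
  apply hne
  rw [eq_bot_iff]
  intro x hx
  rw [← hEN]
  refine ⟨hx, hB x (hE.2 x hx) (fun i => hEz i x hx) ?_⟩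
  unfold GU at hg
  rw [mem_FS] at hg
  obtain ⟨hg1, hg2, hg3⟩ := hg
  intro i
  have hgN : g ∈ Np L := hg1.1
  have hgC : g ∈ Cn E := hg1.2
  have h1 := (hconj i i x (hEz i x hx) g hgN).2
  have h2 : x * g = g * x := (Subgroup.mem_centralizer_iff.1 hgC) x hx
  have h3 : x * g * x⁻¹ = g := by rw [h2, mul_inv_cancel_right]
  rw [h3] at h1
  refine ⟨pr L i g, hg3 i, ?_⟩
  nth_rw 2 [h1]
  rw [inv_mul_cancel_right]

end LEQ
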